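import Pool.Agent.QSN.StmtsD
import Pool.Agent.Helper10_QSX.DDE

/-!
# SLX of squad QSN: the pieces of a weak embedding of `SL_n (𝔻)`
-/

set_option autoImplicit false

namespace Pool.Agent.QSN.H54

open Matrix Finset Pool.Agent.QSX Pool.Agent.QSN

section pieces

variable {k n : ℕ} (𝔻 : Subalgebra ℝ (Matrix (Fin k) (Fin k) ℝ))

theorem single_mem {i j : Fin n} (h : i < j) (x : 𝔻) :
    Matrix.single i j (x : Matrix (Fin k) (Fin k) ℝ) ∈ UD n 𝔻 := by
  refine ⟨fun p q => ?_, fun p q hpq => ?_⟩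
  · by_cases hc : i = p ∧ j = q
    · obtain ⟨rfl, rfl⟩ := hc
      rw [Matrix.single_apply_same]
      exact x.2
    · rw [Matrix.single_apply_of_ne _ _ _ _ _ hc]
      exact 𝔻.zero_mem
  · rw [Matrix.single_apply_of_ne]
    rintro ⟨rfl, rfl⟩
    exact absurd h (not_lt.mpr hpq)

/-- the elementary matrices of blocks -/
noncomputable def En {i j : Fin n} (h : i < j) : 𝔻 →ₗ[ℝ] nD n 𝔻 where
  toFun x := ⟨blk k n (Matrix.single i j (x : Matrix (Fin k) (Fin k) ℝ)), ⟨_, single_mem 𝔻 h x, rfl⟩⟩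
  map_add' x y := by
    apply Subtype.ext
    show blk k n (Matrix.single i j ((x : Matrix (Fin k) (Fin k) ℝ) + y)) =
      blk k n (Matrix.single i j (x : Matrix (Fin k) (Fin k) ℝ)) +
      blk k n (Matrix.single i j (y : Matrix (Fin k) (Fin k) ℝ))
    rw [Matrix.single_add, map_add]
  map_smul' r x := by
    apply Subtype.ext
    show blk k n (Matrix.single i j (r • (x : Matrix (Fin k) (Fin k) ℝ))) =
      r • blk k n (Matrix.single i j (x : Matrix (Fin k) (Fin k) ℝ))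
    rw [← map_smul, Matrix.smul_single]

theorem En_val {i j : Fin n} (h : i < j) (x : 𝔻) :
    ((En 𝔻 h x).1 : Matrix (Fin (n * k)) (Fin (n * k)) ℝ) =
      blk k n (Matrix.single i j (x : Matrix (Fin k) (Fin k) ℝ)) := rfl

theorem dia_single (c : Fin n → ℝ) (i j : Fin n) (x : Matrix (Fin k) (Fin k) ℝ) :
    dia k c * Matrix.single i j x - Matrix.single i j x * dia k c =
      (c i - c j) • Matrix.single i j x := by
  ext p q : 2
  rw [Matrix.sub_apply, dia, Matrix.diagonal_mul, Matrix.mul_diagonal, Matrix.smul_mul,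
      Matrix.mul_smul, Matrix.one_mul, Matrix.mul_one, Matrix.smul_apply]
  by_cases hc : i = p ∧ j = q
  · obtain ⟨rfl, rfl⟩ := hc
    rw [Matrix.single_apply_same, sub_smul]
  · rw [Matrix.single_apply_of_ne _ _ _ _ _ hc]
    simp

theorem dia_mul_entry (c : Fin n → ℝ) (y : Matrix (Fin n) (Fin n) (Matrix (Fin k) (Fin k) ℝ))
    (p q : Fin n) : (dia k c * y - y * dia k c) p q = (c p - c q) • y p q := by
  rw [Matrix.sub_apply, dia, Matrix.diagonal_mul, Matrix.mul_diagonal, Matrix.smul_mul,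
      Matrix.mul_smul, Matrix.one_mul, Matrix.mul_one, sub_smul]

/-- the blocks of an element of `nD` -/
noncomputable def Rd : nD n 𝔻 →ₗ[ℝ] Matrix (Fin n) (Fin n) 𝔻 where
  toFun z := fun p q => ⟨(blk k n).symm (z.1 : Matrix (Fin (n * k)) (Fin (n * k)) ℝ) p q, by
    obtain ⟨_, x, hx, rfl⟩ := z
    show (blk k n).symm (blk k n x) p q ∈ 𝔻
    rw [AlgEquiv.symm_apply_apply]
    exact hx.1 p q⟩
  map_add' z z' := by
    funext p q
    apply Subtype.ext
    show (blk k n).symm ((z.1 : Matrix (Fin (n * k)) (Fin (n * k)) ℝ) + z'.1) p q =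
      (blk k n).symm (z.1 : Matrix (Fin (n * k)) (Fin (n * k)) ℝ) p q +
      (blk k n).symm (z'.1 : Matrix (Fin (n * k)) (Fin (n * k)) ℝ) p q
    rw [map_add, Matrix.add_apply]
  map_smul' r z := by
    funext p q
    apply Subtype.ext
    show (blk k n).symm (r • (z.1 : Matrix (Fin (n * k)) (Fin (n * k)) ℝ)) p q =
      r • (blk k n).symm (z.1 : Matrix (Fin (n * k)) (Fin (n * k)) ℝ) p q
    rw [map_smul, Matrix.smul_apply]

theorem Rd_val (z : nD n 𝔻) (p q : Fin n) :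
    ((Rd 𝔻 z p q : 𝔻) : Matrix (Fin k) (Fin k) ℝ) =
      (blk k n).symm (z.1 : Matrix (Fin (n * k)) (Fin (n * k)) ℝ) p q := rfl

theorem Rd_inj : Function.Injective (Rd (n := n) 𝔻) := by
  intro z z' h
  apply Subtype.ext
  apply (blk k n).symm.injective
  funext p q
  have h1 := congrFun (congrFun h p) q
  have h2 := congrArg (Subtype.val) h1
  rwa [Rd_val, Rd_val] at h2

/-- the weight of a pair of indices -/
def rho (hk : 0 < k) (i j : Fin n) : bD n k →ₗ[ℝ] ℝ where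
  toFun c := (c.1 : Fin (n * k) → ℝ) (finProdFinEquiv (i, ⟨0, hk⟩)) -
    (c.1 : Fin (n * k) → ℝ) (finProdFinEquiv (j, ⟨0, hk⟩))
  map_add' c c' := by
    show ((c.1 : Fin (n * k) → ℝ) (finProdFinEquiv (i, ⟨0, hk⟩)) +
      (c'.1 : Fin (n * k) → ℝ) (finProdFinEquiv (i, ⟨0, hk⟩))) -
      ((c.1 : Fin (n * k) → ℝ) (finProdFinEquiv (j, ⟨0, hk⟩)) +
      (c'.1 : Fin (n * k) → ℝ) (finProdFinEquiv (j, ⟨0, hk⟩))) = _
    ring
  map_smul' r c := by
    show (r * (c.1 : Fin (n * k) → ℝ) (finProdFinEquiv (i, ⟨0, hk⟩))) -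
      (r * (c.1 : Fin (n * k) → ℝ) (finProdFinEquiv (j, ⟨0, hk⟩))) = r * (_ - _)
    ring

theorem rho_cst (hk : 0 < k) (i j : Fin n) (d : Fin n → ℝ) (hd : cst k n d ∈ bD n k) :
    rho hk i j ⟨cst k n d, hd⟩ = d i - d j := by
  show cst k n d (finProdFinEquiv (i, ⟨0, hk⟩)) - cst k n d (finProdFinEquiv (j, ⟨0, hk⟩)) = _
  rw [cst_apply, cst_apply]

theorem En_wt (hk : 0 < k) {i j : Fin n} (h : i < j) (x : 𝔻) (c : bD n k) :
    diagonal (c.1 : Fin (n * k) → ℝ) * ((En 𝔻 h x).1 :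
        Matrix (Fin (n * k)) (Fin (n * k)) ℝ) -
      ((En 𝔻 h x).1 : Matrix (Fin (n * k)) (Fin (n * k)) ℝ) *
        diagonal (c.1 : Fin (n * k) → ℝ) =
      rho hk i j c • ((En 𝔻 h x).1 : Matrix (Fin (n * k)) (Fin (n * k)) ℝ) := by
  obtain ⟨_, d, hd, rfl⟩ := c
  rw [rho_cst, En_val]
  show diagonal (cst k n d) * _ - _ * diagonal (cst k n d) = _
  rw [← blk_dia, ← map_mul, ← map_mul, ← map_sub, dia_single, map_smul]

theorem rho_ne (hk : 0 < k) {i j l : Fin n} (h : i < j) (h' : j < l) :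
    rho hk i j ≠ rho hk j l := by
  intro he
  let d : Fin n → ℝ := fun p => (if p = i then 1 else 0) - 2 * (if p = j then 1 else 0) +
    (if p = l then 1 else 0)
  have hij : i ≠ j := ne_of_lt h
  have hjl : j ≠ l := ne_of_lt h'
  have hil : i ≠ l := ne_of_lt (h.trans h')
  have hd : ∑ p, d p = 0 := by
    show ∑ p, (((if p = i then (1 : ℝ) else 0) - 2 * (if p = j then (1 : ℝ) else 0)) +
      (if p = l then (1 : ℝ) else 0)) = 0
    rw [Finset.sum_add_distrib, Finset.sum_sub_distrib, ← Finset.mul_sum,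
      Finset.sum_ite_eq', Finset.sum_ite_eq', Finset.sum_ite_eq']
    simp
    norm_num
  have h1 := LinearMap.congr_fun he ⟨cst k n d, ⟨d, hd, rfl⟩⟩
  rw [rho_cst, rho_cst] at h1
  have hi : d i = 1 := by
    show (if i = i then (1 : ℝ) else 0) - 2 * (if i = j then (1 : ℝ) else 0) +
      (if i = l then (1 : ℝ) else 0) = 1
    rw [if_pos rfl, if_neg hij, if_neg hil]
    ring
  have hj : d j = -2 := by
    show (if j = i then (1 : ℝ) else 0) - 2 * (if j = j then (1 : ℝ) else 0) +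
      (if j = l then (1 : ℝ) else 0) = -2
    rw [if_pos rfl, if_neg hij.symm, if_neg hjl]
    ring
  have hl : d l = 1 := by
    show (if l = i then (1 : ℝ) else 0) - 2 * (if l = j then (1 : ℝ) else 0) +
      (if l = l then (1 : ℝ) else 0) = 1
    rw [if_pos rfl, if_neg hil.symm, if_neg hjl.symm]
    ring
  rw [hi, hj, hl] at h1
  norm_num at h1

theorem En_br {i j l : Fin n} (h : i < j) (h' : j < l) (x y : 𝔻) :
    ((En 𝔻 h x).1 : Matrix (Fin (n * k)) (Fin (n * k)) ℝ) *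
        ((En 𝔻 h' y).1 : Matrix (Fin (n * k)) (Fin (n * k)) ℝ) -
      ((En 𝔻 h' y).1 : Matrix (Fin (n * k)) (Fin (n * k)) ℝ) *
        ((En 𝔻 h x).1 : Matrix (Fin (n * k)) (Fin (n * k)) ℝ) =
      ((En 𝔻 (h.trans h') (x * y)).1 : Matrix (Fin (n * k)) (Fin (n * k)) ℝ) := by
  rw [En_val, En_val, En_val, ← map_mul, ← map_mul, ← map_sub, Matrix.single_mul_single_same,
    Matrix.single_mul_single_of_ne _ _ _ _ (ne_of_gt (h.trans h')), sub_zero]
  rfl

theorem En_inj {i j : Fin n} (h : i < j) : Function.Injective (En 𝔻 h) := by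
  intro x y hxy
  have h1 := congrArg Subtype.val hxy
  rw [En_val, En_val] at h1
  have h2 := (blk k n).injective h1
  have h3 := congrFun (congrFun h2 i) j
  rw [Matrix.single_apply_same, Matrix.single_apply_same] at h3
  exact Subtype.ext h3

end pieces

theorem slx_core (k k' : ℕ) (hk : 0 < k) (hk' : 0 < k')
    (𝔻 : Subalgebra ℝ (Matrix (Fin k) (Fin k) ℝ))
    (𝔻' : Subalgebra ℝ (Matrix (Fin k') (Fin k') ℝ)) (n m : ℕ)
    (T : nD n 𝔻 →ₗ[ℝ] Matrix (Fin (m * k')) (Fin (m * k')) ℝ)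
    (P : bD n k →ₗ[ℝ] (Fin (m * k') → ℝ)) (hT : ∀ x, T x ∈ nD m 𝔻') (hP : ∀ a, P a ∈ bD m k')
    (hTi : Function.Injective T)
    (hTP : ∀ (a : bD n k) (x : nD n 𝔻) (h : diagonal a.1 * x.1 - x.1 * diagonal a.1 ∈ nD n 𝔻),
      T ⟨_, h⟩ = diagonal (P a) * T x - T x * diagonal (P a))
    (hTb : ∀ ρ ρ' : bD n k →ₗ[ℝ] ℝ, ρ ≠ ρ' → ∀ x y : nD n 𝔻,
      (∀ c : bD n k, diagonal c.1 * x.1 - x.1 * diagonal c.1 = ρ c • x.1) →
      (∀ c : bD n k, diagonal c.1 * y.1 - y.1 * diagonal c.1 = ρ' c • y.1) →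
      ∀ h : x.1 * y.1 - y.1 * x.1 ∈ nD n 𝔻, T ⟨_, h⟩ = T x * T y - T y * T x) :
    Nonempty (SLW n m 𝔻 𝔻') := by
  classical
  let T' : nD n 𝔻 →ₗ[ℝ] nD m 𝔻' := T.codRestrict (nD m 𝔻') hT
  have hT' : ∀ x, ((T' x).1 : Matrix (Fin (m * k')) (Fin (m * k')) ℝ) = T x :=
    fun x => rfl
  let t : Fin n → Fin n → 𝔻 →ₗ[ℝ] Matrix (Fin m) (Fin m) 𝔻' := fun i j =>
    if h : i < j then (Rd 𝔻').comp (T'.comp (En 𝔻 h)) else 0
  have ht : ∀ i j (h : i < j) x, t i j x = Rd 𝔻' (T' (En 𝔻 h x)) := by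
    intro i j h x
    show (if h : i < j then (Rd 𝔻').comp (T'.comp (En 𝔻 h)) else 0) x = _
    rw [dif_pos h]
    rfl
  let w : Fin m → SZ n → ℝ := fun p a =>
    (P ⟨cst k n a.1, ⟨a.1, a.2, rfl⟩⟩ : Fin (m * k') → ℝ) (finProdFinEquiv (p, ⟨0, hk'⟩))
  refine ⟨⟨t, w, ?_, ?_, ?_⟩⟩
  · -- weights
    intro i j h x p q hne
    rw [ht i j h x] at hne
    funext a
    show w p a = w q a + ep i j a
    let c : bD n k := ⟨cst k n a.1, ⟨a.1, a.2, rfl⟩⟩
    obtain ⟨d, hd, hPd⟩ := hP c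
    have hwp : ∀ p, w p a = d p := by
      intro p
      show (P c : Fin (m * k') → ℝ) (finProdFinEquiv (p, ⟨0, hk'⟩)) = d p
      rw [hPd]
      exact cst_apply d p _
    have hm : diagonal c.1 * (En 𝔻 h x).1 - (En 𝔻 h x).1 * diagonal c.1 ∈ nD n 𝔻 :=
      (datD n 𝔻).stab c.1 c.2 (En 𝔻 h x).1 (En 𝔻 h x).2
    have h1 := hTP c (En 𝔻 h x) hm
    have h2 : (⟨_, hm⟩ : nD n 𝔻) = (a.1 i - a.1 j) • En 𝔻 h x := by
      apply Subtype.ext
      show diagonal (c.1 : Fin (n * k) → ℝ) * ((En 𝔻 h x).1 :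
        Matrix (Fin (n * k)) (Fin (n * k)) ℝ) -
      ((En 𝔻 h x).1 : Matrix (Fin (n * k)) (Fin (n * k)) ℝ) *
        diagonal (c.1 : Fin (n * k) → ℝ) = (a.1 i - a.1 j) • ((En 𝔻 h x).1 :
        Matrix (Fin (n * k)) (Fin (n * k)) ℝ)
      rw [En_wt 𝔻 hk h x c, rho_cst]
    rw [h2, map_smul, hPd] at h1
    -- pass to the blocks
    obtain ⟨y, hy, hTy⟩ : ∃ y ∈ UD m 𝔻', T (En 𝔻 h x) = blk k' m y := hT (En 𝔻 h x)
    have h3 : (a.1 i - a.1 j) • y = dia k' d * y - y * dia k' d := by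
      apply (blk k' m).injective
      rw [map_smul, map_sub, map_mul, map_mul, blk_dia, ← hTy]
      exact h1
    have h4 := congrFun (congrFun h3 p) q
    rw [dia_mul_entry, Matrix.smul_apply] at h4
    have hyne : y p q ≠ 0 := by
      intro h0
      apply hne
      apply Subtype.ext
      rw [Rd_val, hT', hTy, AlgEquiv.symm_apply_apply, h0]
      rfl
    have h5 : ((a.1 i - a.1 j) - (d p - d q)) • y p q = 0 := by
      rw [sub_smul, h4, sub_self]
    rcases smul_eq_zero.mp h5 with h6 | h6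
    · rw [hwp, hwp]
      show d p = d q + (a.1 i - a.1 j)
      linarith
    · exact absurd h6 hyne
  · -- brackets
    intro i j l h h' x y
    rw [ht i j h x, ht j l h' y, ht i l (h.trans h') (x * y)]
    have hm : (En 𝔻 h x).1 * (En 𝔻 h' y).1 - (En 𝔻 h' y).1 * (En 𝔻 h x).1 ∈ nD n 𝔻 :=
      (datD n 𝔻).lie (En 𝔻 h x).1 (En 𝔻 h x).2 (En 𝔻 h' y).1 (En 𝔻 h' y).2
    have h1 := hTb (rho hk i j) (rho hk j l) (rho_ne hk h h') (En 𝔻 h x) (En 𝔻 h' y)
      (fun c => En_wt 𝔻 hk h x c) (fun c => En_wt 𝔻 hk h' y c) hm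
    have h2 : (⟨_, hm⟩ : nD n 𝔻) = En 𝔻 (h.trans h') (x * y) := by
      apply Subtype.ext
      exact En_br 𝔻 h h' x y
    rw [h2] at h1
    obtain ⟨u, hu, hTu⟩ : ∃ u ∈ UD m 𝔻', T (En 𝔻 h x) = blk k' m u := hT (En 𝔻 h x)
    obtain ⟨v, hv, hTv⟩ : ∃ v ∈ UD m 𝔻', T (En 𝔻 h' y) = blk k' m v := hT (En 𝔻 h' y)
    have h3 : T (En 𝔻 (h.trans h') (x * y)) = blk k' m (u * v - v * u) := by
      rw [h1, hTu, hTv, map_sub, map_mul, map_mul]
    have e1 : ∀ p q, ((Rd 𝔻' (T' (En 𝔻 h x)) p q : 𝔻') : Matrix (Fin k') (Fin k') ℝ) = u p q := by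
      intro p q
      rw [Rd_val, hT', hTu, AlgEquiv.symm_apply_apply]
    have e2 : ∀ p q, ((Rd 𝔻' (T' (En 𝔻 h' y)) p q : 𝔻') : Matrix (Fin k') (Fin k') ℝ) = v p q := by
      intro p q
      rw [Rd_val, hT', hTv, AlgEquiv.symm_apply_apply]
    funext p q
    apply Subtype.ext
    rw [Rd_val, hT', h3, AlgEquiv.symm_apply_apply]
    rw [Matrix.sub_apply, Matrix.sub_apply, Matrix.mul_apply, Matrix.mul_apply, Matrix.mul_apply,
      Matrix.mul_apply]
    rw [AddSubgroupClass.coe_sub, AddSubmonoidClass.coe_finset_sum,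
      AddSubmonoidClass.coe_finset_sum]
    congr 1
    · refine Finset.sum_congr rfl fun s _ => ?_
      rw [MulMemClass.coe_mul, e1, e2]
    · refine Finset.sum_congr rfl fun s _ => ?_
      rw [MulMemClass.coe_mul, e1, e2]
  · -- injectivity
    intro i j h x y hxy
    rw [ht i j h x, ht i j h y] at hxy
    have h1 := Rd_inj 𝔻' hxy
    have h2 : T (En 𝔻 h x) = T (En 𝔻 h y) := by
      rw [← hT', ← hT', h1]
    exact En_inj 𝔻 h (hTi h2)

theorem slx : SlxStmt := by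
  intro k k' hk hk' 𝔻 𝔻' n m hW
  obtain ⟨T, P, hT, hP, hTi, -, hTP, hTb⟩ := hW
  exact slx_core k k' hk hk' 𝔻 𝔻' n m T P hT hP hTi (fun a x _ => hTP a x)
    (fun ρ ρ' hne x y hx hy _ => hTb ρ ρ' hne x y hx hy)

end Pool.Agent.QSN.H54
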