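import Pool.Agent.QSN.StmtsB2

/-!
# WKT of squad QSN: the vectors `w_k`
-/

set_option autoImplicit false

namespace Pool.Agent.QSN.H54

open Matrix Finset Pool.Agent.QSX Pool.Agent.QSN

theorem wkt (brn : BrnStmt) (tpr : TprStmt) : WktStmt := by
  intro X hX H k
  classical
  obtain ⟨a, ha⟩ := hX.pos
  have h1 : H.w k = hX.br hX.e (H.l k) (H.m k) := brn X hX (H.l k) (H.m k) (H.ne k)
  have h2 := (tpr X hX).2.2 (H.l k) (H.m k) (H.ne k) (H.top k)
  have hne : H.w k ≠ 0 := H.lin.ne_zero k
  have h4 : hX.comp (H.m k) = hX.comp (H.l k) := by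
    cases hL : hX.L (H.l k) (H.m k) with
    | nil =>
      exfalso
      apply hne
      rw [h1]
      unfold MS.br
      rw [hL]
      simp
    | cons t l =>
      have ht : t ∈ hX.L (H.l k) (H.m k) := by
        rw [hL]
        exact List.mem_cons_self
      have hc := hX.L_comp _ _ t ht
      exact hc.2.symm.trans hc.1
  have htop := H.top k
  refine ⟨h1, h2, ?_, h4, ?_, ?_⟩
  · rw [h1]
    unfold MS.br
    refine list_sum_mem ?_
    intro x hx
    rw [List.mem_map] at hx
    obtain ⟨t, ht, rfl⟩ := hx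
    rw [List.mem_filter] at ht
    refine Submodule.smul_mem _ _ (Submodule.subset_span ⟨t.1, ?_, rfl⟩)
    exact (h2 t ht.1).2.2
  · intro h
    rw [← h] at htop
    have h5 : hX.rt (H.m k) = 0 := by
      have h6 : hX.rt (H.l k) + hX.rt (H.m k) = hX.rt (H.l k) + 0 := by rw [add_zero]; exact htop
      exact add_left_cancel h6
    have h7 := ha (H.m k)
    rw [h5] at h7
    simp at h7
  · intro h
    rw [h4] at h
    rw [← h] at htop
    have h5 : hX.rt (H.l k) = 0 := by
      have h6 : hX.rt (H.l k) + hX.rt (H.m k) = 0 + hX.rt (H.m k) := by rw [zero_add]; exact htop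
      exact add_right_cancel h6
    have h7 := ha (H.l k)
    rw [h5] at h7
    simp at h7

end Pool.Agent.QSN.H54
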